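import Mathlib

/-!
Self-interest cumulative subtraction games.  For `S = {4, 17, 24, 27}` and heap size `118` the
second player gets strictly more in the setting AvA than in the setting AvF.
-/

namespace Pool.Agent.Results.MP_0d6f46_co.AvFtoAvA

/-- A tie-breaking convention: friendly or antagonistic. -/
inductive Conv
  | F
  | A
  deriving DecidableEq

/-- `val S c d h` is the pair of equilibrium totals (first player, second player) from the heap
`h` when the mover uses convention `c` and the other player convention `d`.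
If no `s ∈ S` with `0 < s ≤ h` exists it is `(0, 0)`.  Otherwise every such `s` gives the
candidate pair `(s + second total of (h - s), first total of (h - s))`, computed with the two
conventions swapped; the mover restricts to the candidates whose first coordinate is the largest
one, and takes the largest (for `F`) or least (for `A`) second coordinate among those. -/
noncomputable def val (S : Finset ℕ) (c d : Conv) (h : ℕ) : ℕ × ℕ :=
  let cand : Set (ℕ × ℕ) := {p | ∃ s, ∃ _ : s ∈ S ∧ 0 < s ∧ s ≤ h,
    p = (s + (val S d c (h - s)).2, (val S d c (h - s)).1)}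
  let best : ℕ := sSup (Prod.fst '' cand)
  let ties : Set ℕ := {y | (best, y) ∈ cand}
  match c with
  | Conv.F => (best, sSup ties)
  | Conv.A => (best, sInf ties)
termination_by h
decreasing_by all_goals omega

/-- The total of player `i` (`false` is the first player, `true` the second). -/
noncomputable def total (S : Finset ℕ) (c d : Conv) (i : Bool) (h : ℕ) : ℕ :=
  if i then (val S c d h).2 else (val S c d h).1

/-- The set of candidate pairs. -/
def cand (S : Finset ℕ) (c d : Conv) (h : ℕ) : Set (ℕ × ℕ) :=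
  {p | ∃ s, s ∈ S ∧ 0 < s ∧ s ≤ h ∧ p = (s + (val S d c (h - s)).2, (val S d c (h - s)).1)}

theorem val_eq (S : Finset ℕ) (c d : Conv) (h : ℕ) :
    val S c d h =
      (sSup (Prod.fst '' cand S c d h),
        match c with
        | Conv.F => sSup {y | (sSup (Prod.fst '' cand S c d h), y) ∈ cand S c d h}
        | Conv.A => sInf {y | (sSup (Prod.fst '' cand S c d h), y) ∈ cand S c d h}) := by
  have hc : {p : ℕ × ℕ | ∃ s, ∃ _ : s ∈ S ∧ 0 < s ∧ s ≤ h,
      p = (s + (val S d c (h - s)).2, (val S d c (h - s)).1)} = cand S c d h := by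
    ext p
    simp [cand, and_assoc]
  rw [val.eq_def]
  simp only [hc]
  cases c <;> rfl

/-- With no legal move the outcome is `(0,0)`. -/
theorem val_of_no_move (S : Finset ℕ) (c d : Conv) (h : ℕ)
    (hn : ∀ s ∈ S, 0 < s → h < s) : val S c d h = (0, 0) := by
  have he : cand S c d h = ∅ := by
    ext p
    simp only [cand, Set.mem_ofPred_eq, Set.mem_empty_iff_false, iff_false]
    rintro ⟨s, hs, h0, h1, -⟩
    exact absurd (hn s hs h0) (by omega)
  rw [val_eq, he]
  cases c <;> simp

/-- Tie-breaking comparison of two pairs. -/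
def tieLe (c : Conv) (q p : ℕ × ℕ) : Prop :=
  match c with
  | Conv.F => q.2 ≤ p.2
  | Conv.A => p.2 ≤ q.2

/-- A pair with the defining properties is the outcome. -/
theorem val_of_spec (S : Finset ℕ) (c d : Conv) (h : ℕ) (p : ℕ × ℕ)
    (hp : p ∈ cand S c d h) (hmax : ∀ q ∈ cand S c d h, q.1 ≤ p.1)
    (htie : ∀ q ∈ cand S c d h, q.1 = p.1 → tieLe c q p) : val S c d h = p := by
  have hbest : sSup (Prod.fst '' cand S c d h) = p.1 := by
    have : IsGreatest (Prod.fst '' cand S c d h) p.1 := by
      refine ⟨⟨p, hp, rfl⟩, ?_⟩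
      rintro x ⟨q, hq, rfl⟩
      exact hmax q hq
    exact this.csSup_eq
  rw [val_eq, hbest]
  cases c
  · have : IsGreatest {y | (p.1, y) ∈ cand S Conv.F d h} p.2 := by
      refine ⟨hp, ?_⟩
      intro y hy
      exact htie _ hy rfl
    simp only
    rw [this.csSup_eq]
  · have : IsLeast {y | (p.1, y) ∈ cand S Conv.A d h} p.2 := by
      refine ⟨hp, ?_⟩
      intro y hy
      exact htie _ hy rfl
    simp only
    rw [this.csInf_eq]

/-- The subtraction set as a list. -/
def SL : List ℕ := [4, 17, 24, 27]

/-- Outcomes for AvA. -/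
def tAA : List (ℕ × ℕ) :=
  [(0,0), (0,0), (0,0), (0,0), (4,0), (4,0), (4,0), (4,0), (4,4), (4,4), (4,4), (4,4), (8,4), 
   (8,4), (8,4), (8,4), (8,8), (17,0), (17,0), (17,0), (17,0), (17,4), (17,4), (17,4), (24,0), 
   (24,0), (24,0), (27,0), (27,0), (27,0), (27,0), (27,4), (28,4), (28,4), (28,4), (31,4), 
   (31,4), (31,4), (31,4), (31,8), (32,8), (31,8), (31,8), (35,8), (27,17), (28,17), (28,17), 
   (28,17), (31,17), (31,17), (31,17), (27,24), (27,24), (27,24), (27,27), (28,27), (28,27), 
   (28,27), (31,27), (31,28), (31,28), (34,27), (34,28), (34,28), (34,28), (34,31), (35,31), 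
   (35,32), (41,27), (41,27), (41,27), (44,27), (44,28), (44,28), (44,28), (48,27), (48,27), 
   (48,27), (51,27), (51,27), (51,27), (54,27), (54,28), (54,28), (54,28), (54,31), (55,31), 
   (55,31), (54,34), (55,34), (55,34), (56,35), (58,34), (58,35), (59,35), (54,41), (54,41), 
   (54,41), (54,44), (55,44), (55,44), (55,44), (54,48), (54,48), (54,48), (54,51), (54,51), 
   (54,51), (54,54), (55,54), (55,54), (55,54), (58,54), (58,54), (58,54), (61,54), (61,55), 
   (61,55), (62,56)]

/-- Outcomes for AvF. -/
def tAF : List (ℕ × ℕ) :=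
  [(0,0), (0,0), (0,0), (0,0), (4,0), (4,0), (4,0), (4,0), (4,4), (4,4), (4,4), (4,4), (8,4), 
   (8,4), (8,4), (8,4), (8,8), (17,0), (17,0), (17,0), (17,0), (17,4), (17,4), (17,4), (24,0), 
   (24,0), (24,0), (27,0), (27,0), (27,0), (27,0), (27,4), (28,4), (28,4), (28,4), (31,4), 
   (31,4), (31,4), (31,4), (31,8), (32,8), (31,8), (31,8), (35,8), (27,17), (28,17), (28,17), 
   (28,17), (31,17), (31,17), (31,17), (27,24), (27,24), (27,24), (27,27), (28,27), (28,27), 
   (28,27), (31,27), (31,28), (32,28), (34,27), (34,28), (34,28), (34,28), (34,31), (35,31), 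
   (35,32), (41,27), (41,27), (41,27), (44,27), (44,28), (45,28), (45,28), (48,27), (48,27), 
   (48,27), (51,27), (51,27), (52,28), (54,27), (54,28), (55,28), (55,28), (54,31), (55,31), 
   (55,31), (54,34), (55,34), (55,34), (56,35), (58,34), (58,35), (59,35), (54,41), (55,41), 
   (55,41), (54,44), (55,44), (55,44), (55,44), (54,48), (54,48), (54,48), (54,51), (55,51), 
   (55,51), (54,54), (55,54), (55,54), (56,55), (58,54), (58,54), (59,55), (61,54), (61,55), 
   (62,55), (62,55)]

/-- Outcomes for FvA. -/
def tFA : List (ℕ × ℕ) :=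
  [(0,0), (0,0), (0,0), (0,0), (4,0), (4,0), (4,0), (4,0), (4,4), (4,4), (4,4), (4,4), (8,4), 
   (8,4), (8,4), (8,4), (8,8), (17,0), (17,0), (17,0), (17,0), (17,4), (17,4), (17,4), (24,0), 
   (24,0), (24,0), (27,0), (27,0), (27,0), (27,0), (27,4), (28,4), (28,4), (28,4), (31,4), 
   (31,4), (31,4), (31,4), (31,8), (32,8), (31,8), (31,8), (35,8), (27,17), (28,17), (28,17), 
   (28,17), (31,17), (31,17), (31,17), (27,24), (27,24), (27,24), (27,27), (28,27), (28,28), 
   (28,28), (31,27), (31,28), (31,28), (34,27), (34,28), (34,28), (34,28), (34,31), (35,31), 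
   (35,32), (41,27), (41,28), (41,28), (44,27), (44,28), (44,28), (44,28), (48,27), (48,27), 
   (48,27), (51,27), (51,28), (51,28), (54,27), (54,28), (54,28), (54,28), (54,31), (55,31), 
   (55,32), (54,34), (55,34), (55,35), (56,35), (58,34), (58,35), (59,35), (54,41), (54,41), 
   (54,41), (54,44), (55,44), (55,45), (55,45), (54,48), (54,48), (54,48), (54,51), (54,51), 
   (55,52), (54,54), (55,54), (55,55), (55,55), (58,54), (58,55), (58,55), (61,54), (61,55), 
   (61,55), (62,56)]

/-- Outcomes for FvF. -/
def tFF : List (ℕ × ℕ) :=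
  [(0,0), (0,0), (0,0), (0,0), (4,0), (4,0), (4,0), (4,0), (4,4), (4,4), (4,4), (4,4), (8,4), 
   (8,4), (8,4), (8,4), (8,8), (17,0), (17,0), (17,0), (17,0), (17,4), (17,4), (17,4), (24,0), 
   (24,0), (24,0), (27,0), (27,0), (27,0), (27,0), (27,4), (28,4), (28,4), (28,4), (31,4), 
   (31,4), (31,4), (31,4), (31,8), (32,8), (31,8), (31,8), (35,8), (27,17), (28,17), (28,17), 
   (28,17), (31,17), (31,17), (31,17), (27,24), (27,24), (27,24), (27,27), (28,27), (28,28), 
   (28,28), (31,27), (31,28), (32,28), (34,27), (34,28), (34,28), (34,28), (34,31), (35,31), 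
   (35,32), (41,27), (41,28), (41,28), (44,27), (44,28), (45,28), (45,28), (48,27), (48,27), 
   (48,27), (51,27), (51,28), (52,28), (54,27), (54,28), (55,28), (55,28), (54,31), (55,31), 
   (55,32), (54,34), (55,34), (55,35), (56,35), (58,34), (58,35), (59,35), (54,41), (55,41), 
   (55,41), (54,44), (55,44), (55,45), (55,45), (54,48), (54,48), (54,48), (54,51), (55,51), 
   (55,52), (54,54), (55,54), (55,55), (56,55), (58,54), (58,55), (59,55), (61,54), (61,55), 
   (62,55), (62,56)]

/-- The table of a setting. -/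
def tab : Conv → Conv → List (ℕ × ℕ)
  | Conv.A, Conv.A => tAA
  | Conv.A, Conv.F => tAF
  | Conv.F, Conv.A => tFA
  | Conv.F, Conv.F => tFF

/-- Table lookup. -/
def look (c d : Conv) (h : ℕ) : ℕ × ℕ := (tab c d).getD h (0, 0)

/-- The candidate coming from the removal of `s`. -/
def cnd (c d : Conv) (h s : ℕ) : ℕ × ℕ :=
  (s + (look d c (h - s)).2, (look d c (h - s)).1)

/-- Is `q` at most as good as `p` for a player with convention `c`? -/
def le' (c : Conv) (q p : ℕ × ℕ) : Bool :=
  Nat.ble q.1 p.1 && (!(Nat.beq q.1 p.1) ||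
    match c with
    | Conv.F => Nat.ble q.2 p.2
    | Conv.A => Nat.ble p.2 q.2)

/-- The local check of a table entry. -/
def chk (c d : Conv) (h : ℕ) : Bool :=
  let p := look c d h
  (SL.all (fun s => !(Nat.ble s h) || le' c (cnd c d h s) p)) &&
  ((SL.any (fun s => Nat.ble s h && Nat.beq (cnd c d h s).1 p.1
      && Nat.beq (cnd c d h s).2 p.2)) ||
    ((SL.all (fun s => !(Nat.ble s h))) && Nat.beq p.1 0 && Nat.beq p.2 0))

theorem chk_all : ∀ h < 119,
    (chk Conv.A Conv.A h && chk Conv.A Conv.F h && chk Conv.F Conv.A h && chk Conv.F Conv.F h)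
      = true := by
  decide +kernel

theorem chk_all' (c d : Conv) (h : ℕ) (hh : h < 119) : chk c d h = true := by
  have := chk_all h hh
  simp only [Bool.and_eq_true] at this
  cases c <;> cases d <;> tauto

theorem val_table (h : ℕ) : h < 119 → ∀ c d : Conv,
    val ({4, 17, 24, 27} : Finset ℕ) c d h = look c d h := by
  induction h using Nat.strong_induction_on with
  | _ h ih =>
    intro hh c d
    have hc := chk_all' c d h hh
    unfold chk at hc
    simp only [Bool.and_eq_true, Bool.or_eq_true, List.all_eq_true, List.any_eq_true,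
      Bool.not_eq_true', Nat.ble_eq] at hc
    have hmemS : ∀ s, s ∈ ({4, 17, 24, 27} : Finset ℕ) ↔ s ∈ SL := by
      intro s; simp [SL]
    have hpos : ∀ s ∈ SL, 0 < s := by decide
    have hcnd : ∀ s, s ∈ SL → s ≤ h →
        (s + (val ({4, 17, 24, 27} : Finset ℕ) d c (h - s)).2,
          (val ({4, 17, 24, 27} : Finset ℕ) d c (h - s)).1) = cnd c d h s := by
      intro s hs hsh
      have h0 := hpos s hs
      rw [ih (h - s) (by omega) (by omega) d c]
      rfl
    obtain ⟨h1, h2⟩ := hc
    rcases h2 with ⟨s, hs, ⟨hsh, hs1⟩, hs2⟩ | ⟨⟨hall, h3⟩, h4⟩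
    · have hs1 := Nat.eq_of_beq_eq_true hs1
      have hs2 := Nat.eq_of_beq_eq_true hs2
      have key : ∀ t ∈ SL, t ≤ h → le' c (cnd c d h t) (look c d h) = true := by
        intro t htL hth
        rcases h1 t htL with h5 | h5
        · have := Nat.ble_eq.mpr hth
          rw [this] at h5
          exact absurd h5 (by simp)
        · exact h5
      refine val_of_spec _ _ _ _ _ ⟨s, (hmemS s).2 hs, hpos s hs, hsh, ?_⟩ ?_ ?_
      · rw [hcnd s hs hsh]
        exact Prod.ext hs1.symm hs2.symm
      · rintro q ⟨t, ht, ht0, hth, rfl⟩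
        have htL := (hmemS t).1 ht
        rw [hcnd t htL hth]
        have h5 := key t htL hth
        unfold le' at h5
        simp only [Bool.and_eq_true, Nat.ble_eq] at h5
        exact h5.1
      · rintro q ⟨t, ht, ht0, hth, rfl⟩
        have htL := (hmemS t).1 ht
        rw [hcnd t htL hth]
        intro heq
        have h5 := key t htL hth
        unfold le' at h5
        simp only [Bool.and_eq_true, Bool.or_eq_true, Bool.not_eq_true', Nat.ble_eq] at h5
        rcases h5.2 with h6 | h6
        · rw [heq] at h6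
          exact absurd h6 (by simp)
        · cases c
          · exact Nat.ble_eq.mp h6
          · exact Nat.ble_eq.mp h6
    · rw [val_of_no_move]
      · exact (Prod.ext (Nat.eq_of_beq_eq_true h3) (Nat.eq_of_beq_eq_true h4)).symm
      · intro s hs _
        have := hall s ((hmemS s).1 hs)
        by_contra hcon
        push Not at hcon
        rw [Nat.ble_eq.mpr hcon] at this
        exact absurd this (by simp)

/-- For `S = {4, 17, 24, 27}` and the heap `118`, the second player's total in AvA is strictly
larger than in AvF. In particular going from AvF to AvA (a unilateral switch of player 2 from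
friendly to antagonistic tie-breaking) strictly benefits player 2, and the conjectured inequality
fails. -/
theorem result : ∃ S : Finset ℕ, S.Nonempty ∧ (∀ s ∈ S, 0 < s) ∧ ∃ (h : ℕ) (i : Bool)
    (X : Conv × Conv), (X = (Conv.A, Conv.F) ∨ X = (Conv.F, Conv.A)) ∧
      total S X.1 X.2 i h < total S Conv.A Conv.A i h := by
  refine ⟨{4, 17, 24, 27}, ⟨4, by simp⟩, by simp, 118, true, (Conv.A, Conv.F), Or.inl rfl, ?_⟩
  simp only [total, if_true]
  rw [val_table 118 (by norm_num), val_table 118 (by norm_num)]
  decide +kernel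

end Pool.Agent.Results.MP_0d6f46_co.AvFtoAvA
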